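import Pool.Agent.H84.CY.Main

/-!
# Division algebras of degree 5 in characteristic 5 are cyclic

`F` a field of characteristic 5, `D` a division ring with centre `F` and `dim_F D = 25`. Then `D` contains a cyclic
Galois extension of `F` of degree 5 (the conclusion is that of the frozen statement S02127, with `p = 5`).

Proof. (A) `D` contains an element `x`, not in `F`, with `x ^ 5 = d x + c`, `d`, `c` in `F`: over a maximal subfield
`K = F(t)` write `D` as matrices of size 5. The matrices `x0 + t x1 + t ^ 2 x2` with `x0`, `x1`, `x2` in `D` form an
`F`-space of dimension 75, the upper triangular matrices with constant diagonal one of dimension 55; as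
`75 + 55 - 125 = 5 > 3` there is such a triple not in `F ^ 3` with upper triangular value. The coefficients
`S_i(T)` of the characteristic polynomial of `x0 + T x1 + T ^ 2 x2` are polynomials over `F` of degree at most `2 i`
which vanish at `t` (characteristic 5), so `S_1 = S_2 = 0` and `S_3` is the minimal polynomial of `t` times a
polynomial of degree at most 1, which has a zero in `F` or at infinity.
(B) If `x` is not in `F` and `x ^ p = d x + c`, `p = char F` (`p` any prime, `D` of degree `p`), then `D` contains `u`,
not in `F`, with `u ^ p` in `F`: eigenvectors of `ad x` over `F(d ^ (1/(p-1)))`, averaging over its Galois group,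
and descent of prime to `p` degree.
(C) Albert: then `D` contains `w`, not in `F`, with `w ^ p - w` in `F`, and `F(w) / F` is cyclic of degree `p`.
-/

set_option autoImplicit false

universe u v

namespace Pool.Agent.Results.MP_83bf11_al.DegreeFive

/-- Every central division algebra of dimension 25 over a field of characteristic 5 contains a cyclic Galois extension
of degree 5 of its centre. -/
theorem result :
    ∀ (F : Type u) [Field F] [CharP F 5] (D : Type v) [DivisionRing D] [Algebra F D]
      [Algebra.IsCentral F D] [FiniteDimensional F D],
      Module.finrank F D = 5 ^ 2 →
      ∃ (L : Type u) (_ : Field L) (_ : Algebra F L),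
        IsGalois F L ∧ IsCyclic (L ≃ₐ[F] L) ∧ Module.finrank F L = 5 ∧
          Nonempty (L →ₐ[F] D) := by
  intro F _ _ D _ _ _ _ h
  exact Pool.Agent.H84.CY.main_five h

end Pool.Agent.Results.MP_83bf11_al.DegreeFive
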