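import Pool.Agent.H52.QC.Main

/-!
# Division algebras of degree 5 become cyclic over a quadratic extension

`F` any field, `D` a division ring with centre `F` and `dim_F D = 25`. Then `D` is cyclic, or `F` has a field extension
`E` of degree `2` such that `E ⊗ D` contains an element `y`, not in `E`, with `y ^ 5 - 5 d y ^ 3 + 5 d ^ 2 y = s`, `d` and `s`
in `E`, and, if `F` contains a primitive fifth root of unity, `E ⊗ D` is cyclic.

In particular `D` is cyclic if `F` has no extension of degree `2`; and if `F` contains a primitive fifth root of unity, then
`D` becomes cyclic over an extension of degree at most `2`.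

Proof. Let `K = F(t)` be a maximal subfield, `D` in the matrices of size `5` over `K`, `5 ≠ 0`. By `100 + 30 - 125 = 5 > 0` there
is a cubic curve `x(T) = x0 + T x1 + T ^ 2 x2 + T ^ 3 x3` in `D` whose value at `T = t` is supported in the upper right
block of size `3 x 2`. The coefficients `s_k` of its characteristic polynomial are polynomials over `F` of degree at
most `3 k` which vanish at `t` of order at least `k / 2`. So `s_1 = s_3 = 0` and `5 s_4 - s_2 ^ 2` is the square of the
minimal polynomial of `t` times a polynomial of degree at most `2`, which has a zero in an extension `E` of degree at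
most `2`. The value `y` of the curve there satisfies a De Moivre equation. If `E` contains the fifth roots of unity,
`E ⊗ D` is dihedral or contains a fifth root of a scalar, and it is cyclic.
-/

set_option autoImplicit false

universe u v

open TensorProduct

namespace Pool.Agent.Results.MP_83bf11_al.QuadraticCyclic

/-- A central division algebra `D` of dimension 25 over any field `F` is cyclic, or `F` has a quadratic extension `E`
such that `E ⊗ D` contains a De Moivre element and, if `F` contains a primitive fifth root of unity, is cyclic. -/
theorem result :
    ∀ (F : Type u) [Field F] (D : Type v) [DivisionRing D] [Algebra F D]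
      [Algebra.IsCentral F D] [FiniteDimensional F D],
      Module.finrank F D = 5 ^ 2 →
      (∃ (L : Type u) (_ : Field L) (_ : Algebra F L),
        IsGalois F L ∧ IsCyclic (L ≃ₐ[F] L) ∧ Module.finrank F L = 5 ∧ Nonempty (L →ₐ[F] D)) ∨
      ∃ (E : Type u) (_ : Field E) (_ : Algebra F E), Module.finrank F E = 2 ∧
        (∃ (y : E ⊗[F] D) (d s : E), y ∉ Set.range (algebraMap E (E ⊗[F] D)) ∧
          y ^ 5 - (5 * d) • y ^ 3 + (5 * d ^ 2) • y = algebraMap E (E ⊗[F] D) s) ∧
        ((∃ ζ : F, IsPrimitiveRoot ζ 5) →
          ∃ (L : Type u) (_ : Field L) (_ : Algebra E L),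
            IsGalois E L ∧ IsCyclic (L ≃ₐ[E] L) ∧ Module.finrank E L = 5 ∧
            Nonempty (L →ₐ[E] E ⊗[F] D)) := by
  intro F _ D _ _ _ _ h
  exact Pool.Agent.H52.QC.main h

end Pool.Agent.Results.MP_83bf11_al.QuadraticCyclic
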