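import Pool.Agent.H84.CY.StG

/-!
# Every division algebra of degree 5 contains a root of a trinomial `X ^ 5 - a X - b`

`F` any field, `D` a division ring with centre `F` and `dim_F D = 25`. Then some `x` in `D`, not in `F`, satisfies
`x ^ 5 = a x + b` with `a`, `b` in `F`; so `F(x)` is a maximal subfield generated by a root of `X ^ 5 - a X - b`.

Proof. Let `K = F(t)` be a maximal subfield; write `D` as matrices of size 5 over `K`. The matrices
`x0 + t x1 + t ^ 2 x2` with `x0`, `x1`, `x2` in `D` form an `F`-space of dimension 75, the upper triangular matrices with
constant diagonal one of dimension 55; as `75 + 55 - 125 = 5 > 3` there is such a triple not in `F ^ 3` with upper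
triangular value. If 5 is invertible, subtract from each element its reduced trace divided by 5; then the value is
strictly upper triangular. The coefficients `S_i(T)` of the characteristic polynomial of `x0 + T x1 + T ^ 2 x2` are
polynomials over `F` of degree at most `2 i` which vanish at `t`, so `S_1 = S_2 = 0`, and `S_3` is the
minimal polynomial of `t` times a polynomial of degree at most 1, which has a zero in `F` or at infinity. At this zero
the element is the wanted one, or it is in `F` and the conic degenerates to a line of elements with
`S_1 = S_2 = S_3 = 0`.
-/

set_option autoImplicit false

universe u v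

namespace Pool.Agent.Results.MP_83bf11_al.QuinticTrinomial

/-- Every central division algebra of dimension 25 over a field `F` contains an element `x`, not in `F`, with
`x ^ 5 = a x + b`, `a` and `b` in `F`. -/
theorem result :
    ∀ (F : Type u) [Field F] (D : Type v) [DivisionRing D] [Algebra F D]
      [Algebra.IsCentral F D] [FiniteDimensional F D],
      Module.finrank F D = 5 ^ 2 →
      ∃ (x : D) (a b : F), x ∉ Set.range (algebraMap F D) ∧ x ^ 5 = a • x + algebraMap F D b := by
  intro F _ D _ _ _ _ h
  exact Pool.Agent.H84.CY.stg h

end Pool.Agent.Results.MP_83bf11_al.QuinticTrinomial
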