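import Pool.Agent.H84.CY.Main
import Pool.Agent.H84.CY.ScC

/-!
# Division algebras of degree `p = char F` with a maximal subfield of solvable Galois closure are cyclic

`F` a field of characteristic `p`, `D` a division ring with centre `F` and `dim_F D = p ^ 2`. If the minimal polynomial of
some `x` in `D`, not in `F`, has a solvable Galois group (that is, the Galois closure of the maximal subfield `F(x)` is
solvable over `F`), then `D` contains a cyclic Galois extension of `F` of degree `p`.

Proof. (1) Galois: the group `G` has a normal subgroup `N = <s>` of order `p`. By Artin-Schreier and independence of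
characters `F(x)` contains `z` with `s z - z = e` fixed by `s`, `e ≠ 0`; so `z ^ p = d z + c` with `d`, `c` in `F`. (If
`F(x)` is inseparable then `x ^ p` is in `F`.)
(2) For `d ≠ 0` let `L = F(e)`, `e ^ (p-1) = d`, a cyclic extension of degree prime to `p`; `D` stays a division algebra
over `L`. As `(ad z) ^ p = d (ad z)`, there is `v` with `z v = v (z + e)`, and `v ^ p` is in `L`. The product `w` over
the Galois group of `L / F` of the powers `(g v) ^ n(g)`, `n(g) = 1 / ([L:F] s(g))` modulo `p` where `g e = s(g) e`, satisfies
`z w = w (z + e)` and `w ^ p = C` with `g C = C ^ s(g) * (e_g) ^ p`. So `m = sum of e_g w ^ s(g)` is not in `L` and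
`m ^ p = Tr C = C0` is in `F`. The algebra `D` over `L` has dimension over `F` not divisible by `p ^ 3` and is a module over
`D` tensor `F(C0 ^ (1/p))`, so the latter is not a division algebra, and `D` contains a `p`-th root `u` of `C0`, not in `F`.
(3) Albert: then `D` contains `w`, not in `F`, with `w ^ p - w` in `F`, and `F(w)` is cyclic over `F`.
-/

set_option autoImplicit false

universe u v

namespace Pool.Agent.Results.MP_83bf11_al.SolvableClosure

/-- A central division algebra of dimension `p ^ 2` over a field of characteristic `p` which contains a non central
element whose minimal polynomial has a solvable Galois group contains a cyclic Galois extension of degree `p` of its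
centre. -/
theorem result :
    ∀ (p : ℕ) (F : Type u) [Field F] [CharP F p] (D : Type v) [DivisionRing D] [Algebra F D]
      [Algebra.IsCentral F D] [FiniteDimensional F D],
      p.Prime → Module.finrank F D = p ^ 2 →
      ∀ x : D, x ∉ Set.range (algebraMap F D) → Group.IsSolvable (minpoly F x).Gal →
      ∃ (L : Type u) (_ : Field L) (_ : Algebra F L),
        IsGalois F L ∧ IsCyclic (L ≃ₐ[F] L) ∧ Module.finrank F L = p ∧
          Nonempty (L →ₐ[F] D) := by
  intro p F _ _ D _ _ _ _ hp h x hx hsol
  obtain ⟨z, d, c, hz, hzp⟩ :=
    Pool.Agent.H84.CY.scC hp x (Pool.Agent.H84.CY.sub_minpoly hp h x hx) hsol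
  exact Pool.Agent.H84.CY.main_sub hp h z hz d c hzp

end Pool.Agent.Results.MP_83bf11_al.SolvableClosure
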